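import Mathlib

/-!
# The `ℓ`-adic numbers embed in the complex numbers
-/

set_option autoImplicit false

namespace Pool.Agent.E8helper97.TW

open Cardinal

theorem card_padic_le (ℓ : ℕ) [Fact ℓ.Prime] : #ℚ_[ℓ] ≤ 𝔠 := by
  have h1 : #ℚ_[ℓ] ≤ #(PadicSeq ℓ) := mk_le_of_surjective (f := Quotient.mk'') Quotient.mk''_surjective
  have h2 : #(PadicSeq ℓ) ≤ #(ℕ → ℚ) := mk_le_of_injective (f := Subtype.val) Subtype.val_injective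
  refine h1.trans (h2.trans ?_)
  rw [← Cardinal.power_def, mk_nat, Cardinal.mkRat]
  exact (aleph0_power_aleph0).le

theorem emb (ℓ : ℕ) [Fact ℓ.Prime] : Nonempty (ℚ_[ℓ] →+* ℂ) := by
  have h1 : #(AlgebraicClosure ℚ_[ℓ]) ≤ 𝔠 := by
    refine (Algebra.IsAlgebraic.cardinalMk_le_max ℚ_[ℓ] (AlgebraicClosure ℚ_[ℓ])).trans ?_
    exact max_le (card_padic_le ℓ) aleph0_le_continuum
  have h2 : 𝔠 ≤ #ℚ_[ℓ] := continuum_le_cardinal_of_nontriviallyNormedField ℚ_[ℓ]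
  have h3 : #ℚ_[ℓ] ≤ #(AlgebraicClosure ℚ_[ℓ]) :=
    mk_le_of_injective (algebraMap ℚ_[ℓ] (AlgebraicClosure ℚ_[ℓ])).injective
  have h4 : #(AlgebraicClosure ℚ_[ℓ]) = 𝔠 := le_antisymm h1 (h2.trans h3)
  have h5 : #ℂ = 𝔠 := mk_complex
  obtain ⟨e⟩ : Nonempty (AlgebraicClosure ℚ_[ℓ] ≃ ℂ) := Cardinal.eq.1 (h4.trans h5.symm)
  have : CharZero (AlgebraicClosure ℚ_[ℓ]) :=
    charZero_of_injective_algebraMap (algebraMap ℚ_[ℓ] (AlgebraicClosure ℚ_[ℓ])).injective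
  obtain ⟨f⟩ := IsAlgClosed.ringEquiv_of_equiv_of_charZero (K := AlgebraicClosure ℚ_[ℓ]) (L := ℂ)
    (by rw [h4]; exact aleph0_lt_continuum) ⟨e⟩
  exact ⟨(f : AlgebraicClosure ℚ_[ℓ] →+* ℂ).comp (algebraMap ℚ_[ℓ] (AlgebraicClosure ℚ_[ℓ]))⟩

end Pool.Agent.E8helper97.TW
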