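import Pool.Agent.E8helper1.TW.Stm3
import Pool.Agent.E8helper97.TW.Emb0

/-!
# `S_EMB`
-/

set_option autoImplicit false

namespace Pool.Agent.E8helper97.TW

theorem t_EMB : Pool.Agent.E8helper1.TW.S_EMB := fun ℓ _ => emb ℓ

end Pool.Agent.E8helper97.TW
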